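import Pool.Agent.Lib.MP_5d68ca_lc.Final

open FirstOrder Pool.Agent.Lib.MP_5d68ca_lc

namespace Pool.Agent.Results.MP_5d68ca_lc.DividingLine

/-- In ZFC, for every index `κ`: the tree property passes upwards in the interpretability order. -/
theorem result (κ : Cardinal.{0}) (L₀ L₁ : FirstOrder.Language.{0, 0}) [Countable L₁.Symbols]
    (T₀ : L₀.Theory) (T₁ : L₁.Theory) (h₀ : T₀.IsComplete) (h : InterpLe κ T₀ T₁)
    (htp : HasTP T₀) : HasTP T₁ :=
  by_contra fun h₁ => main κ h₀ htp h₁ h

/-- Every maximal theory has the tree property. -/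
theorem maximal_case (κ : Cardinal.{0}) (L₁ : FirstOrder.Language.{0, 0}) [Countable L₁.Symbols]
    (T₁ : L₁.Theory) (h : ∀ (L₀ : FirstOrder.Language.{0, 0}) (T₀ : L₀.Theory),
      Countable L₀.Symbols → T₀.IsComplete → InterpLe κ T₀ T₁) : HasTP T₁ :=
  result κ Language.graph L₁ _ T₁ (@Language.completeTheory.isComplete Language.graph (List ℕ) treeStr _)
    (h _ _ graph_countable (@Language.completeTheory.isComplete Language.graph (List ℕ) treeStr _))
    tree_hasTP

end Pool.Agent.Results.MP_5d68ca_lc.DividingLine
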